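import Pool.Agent.Helper69.ST.Goals
import Pool.Agent.Helper45.Stek.FM

/-! ST, packet DV: Green's inequality on a Lipschitz domain. -/

open MeasureTheory Set Complex Metric Filter
open scoped ContDiff Topology ENNReal Manifold

namespace Pool.Agent.Helper59.ST.DV

open Pool.Agent.Helper45.Stek Pool.Agent.Helper69.ST

theorem dbar_cont {G : ℂ → ℂ} (hG : ContDiff ℝ ∞ G) : Continuous (dbar G) := by
  have h : Continuous (fderiv ℝ G) := hG.continuous_fderiv (by simp)
  unfold dbar
  exact (h.clm_apply continuous_const).add (continuous_const.mul (h.clm_apply continuous_const))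

theorem dbar_zero {G : ℂ → ℂ} {z : ℂ} (hz : z ∉ tsupport G) : dbar G z = 0 := by
  have h : fderiv ℝ G z = 0 := by
    by_contra hne
    exact hz (support_fderiv_subset ℝ hne)
  simp [dbar, h]

theorem int_fderiv {W : ℂ → ℂ} (hW : ContDiff ℝ ∞ W) (hc : HasCompactSupport W) (v : ℂ) :
    ∫ z, fderiv ℝ W z v = 0 := by
  have h0 : Continuous (fun z => fderiv ℝ W z v) :=
    (hW.continuous_fderiv (by simp)).clm_apply continuous_const
  have h1 : HasCompactSupport (fun z => fderiv ℝ W z v) := hc.fderiv_apply ℝ v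
  have h2 : Integrable (fun z => fderiv ℝ W z v) := h0.integrable_of_hasCompactSupport h1
  have h3 : Integrable W := hW.continuous.integrable_of_hasCompactSupport hc
  have key := integral_mul_fderiv_eq_neg_fderiv_mul_of_integrable (μ := (volume : Measure ℂ))
    (f := fun _ : ℂ => (1 : ℂ)) (g := W) (v := v) (by simp) (by simpa using h2)
    (by simpa using h3) (fun x _ => differentiableAt_const _)
    (fun x _ => (hW.differentiable (by simp)) x)
  simpa using key

theorem int_dbar {W : ℂ → ℂ} (hW : ContDiff ℝ ∞ W) (hc : HasCompactSupport W) :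
    ∫ z, dbar W z = 0 := by
  have h0 : ∀ v : ℂ, Integrable (fun z => fderiv ℝ W z v) := fun v =>
    ((hW.continuous_fderiv (by simp)).clm_apply continuous_const).integrable_of_hasCompactSupport
      (hc.fderiv_apply ℝ v)
  unfold dbar
  rw [integral_add (h0 1) ((h0 I).const_mul I), integral_const_mul, int_fderiv hW hc,
    int_fderiv hW hc]
  simp

theorem dbar_comp {F : ℂ → ℂ} (hF : ContDiff ℝ ∞ F) (p a ζ : ℂ) :
    dbar (fun ζ => F (p + a * ζ)) ζ = starRingEnd ℂ a * dbar F (p + a * ζ) := by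
  have he : HasFDerivAt (fun ζ : ℂ => p + a * ζ) (a • ContinuousLinearMap.id ℝ ℂ) ζ :=
    ((hasFDerivAt_id ζ).const_mul a).const_add p
  have hD : HasFDerivAt F (fderiv ℝ F (p + a * ζ)) (p + a * ζ) :=
    ((hF.differentiable (by simp)) _).hasFDerivAt
  have hcomp := hD.comp ζ he
  have hfd : fderiv ℝ (fun ζ => F (p + a * ζ)) ζ =
      (fderiv ℝ F (p + a * ζ)).comp (a • ContinuousLinearMap.id ℝ ℂ) := hcomp.fderiv
  set D := fderiv ℝ F (p + a * ζ) with hDdef
  have e1 : a * 1 = a.re • (1 : ℂ) + a.im • I := by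
    rw [mul_one, Complex.real_smul, Complex.real_smul, mul_one, Complex.re_add_im]
  have e2 : a * I = (-a.im) • (1 : ℂ) + a.re • I := by
    rw [Complex.real_smul, Complex.real_smul, mul_one]
    conv_lhs => rw [← Complex.re_add_im a]
    push_cast
    ring_nf
    rw [Complex.I_sq]
    ring
  have f1 : D (a * 1) = a.re • D 1 + a.im • D I := by rw [e1, map_add, map_smul, map_smul]
  have f2 : D (a * I) = (-a.im) • D 1 + a.re • D I := by rw [e2, map_add, map_smul, map_smul]
  unfold dbar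
  rw [hfd]
  simp only [ContinuousLinearMap.comp_apply, _root_.smul_apply,
    ContinuousLinearMap.id_apply, smul_eq_mul]
  rw [← hDdef, f1, f2, Complex.real_smul, Complex.real_smul, Complex.real_smul,
    Complex.real_smul]
  have hconj : starRingEnd ℂ a = a.re - a.im * I := by
    apply Complex.ext <;> simp
  rw [hconj]
  push_cast
  have hI : I * I = -1 := Complex.I_mul_I
  linear_combination ((a.im : ℂ) * D I) * hI

theorem frontier_of_graph {Ω : Set ℂ} (ho : IsOpen Ω) {p a : ℂ} {r : ℝ} {g : ℝ → ℝ}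
    (ha : ‖a‖ = 1) (h : ∀ s t : ℝ, |s| < r → |t| < r → (p + a * (s + t * I) ∈ Ω ↔ g s < t))
    {s t : ℝ} (hs : |s| < r) (ht : |t| < r) (hg : g s = t) : p + a * (s + t * I) ∈ frontier Ω := by
  rw [ho.frontier_eq]
  refine ⟨?_, fun hin => absurd ((h s t hs ht).mp hin) (by rw [hg]; exact lt_irrefl _)⟩
  rw [Metric.mem_closure_iff]
  intro ε hε
  have hpos : 0 < r - |t| := by linarith
  set δ : ℝ := min (ε / 2) ((r - |t|) / 2) with hδ
  have hδ0 : 0 < δ := lt_min (by linarith) (by linarith)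
  have hδ1 : δ ≤ ε / 2 := min_le_left _ _
  have hδ2 : δ ≤ (r - |t|) / 2 := min_le_right _ _
  have ht' : |t + δ| < r := by
    calc |t + δ| ≤ |t| + |δ| := abs_add_le _ _
      _ = |t| + δ := by rw [abs_of_pos hδ0]
      _ < r := by linarith
  refine ⟨p + a * (s + ((t + δ : ℝ) : ℂ) * I), (h s (t + δ) hs ht').mpr (by rw [hg]; linarith), ?_⟩
  rw [dist_eq_norm]
  have : p + a * (s + t * I) - (p + a * (s + ((t + δ : ℝ) : ℂ) * I)) = -(a * (δ * I)) := by
    push_cast
    ring
  rw [this, norm_neg, norm_mul, ha, norm_mul, Complex.norm_I, Complex.norm_real, Real.norm_eq_abs,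
    abs_of_pos hδ0]
  linarith

theorem intOn {Ω : Set ℂ} (hΩ : LipDomain Ω) {φ : ℂ → ℝ} (hφ : Continuous φ) :
    IntegrableOn φ (frontier Ω) (Measure.hausdorffMeasure 1) := by
  have hcomp : IsCompact (frontier Ω) :=
    (hΩ.bdd.isCompact_closure).of_isClosed_subset isClosed_frontier frontier_subset_closure
  obtain ⟨C, hC⟩ := hcomp.exists_bound_of_continuousOn hφ.continuousOn
  refine Measure.integrableOn_of_bounded (M := C) (fm Ω hΩ).ne hφ.aestronglyMeasurable ?_
  exact (ae_restrict_mem isClosed_frontier.measurableSet).mono fun x hx => hC x hx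

theorem local_box (hDL : S_DL) {Ω : Set ℂ} (hΩ : LipDomain Ω) {p a : ℂ} {r : ℝ} {L : NNReal}
    {g : ℝ → ℝ} (ha : ‖a‖ = 1) (hg : LipschitzWith L g)
    (h : ∀ s t : ℝ, |s| < r → |t| < r → (p + a * (s + t * I) ∈ Ω ↔ g s < t))
    {F : ℂ → ℂ} (hF : ContDiff ℝ ∞ F) (hc : HasCompactSupport F)
    (hs : ∀ ζ : ℂ, p + a * ζ ∈ tsupport F → |ζ.re| < r ∧ |ζ.im| < r) :
    ‖∫ z in Ω, dbar F z‖ ≤ ∫ z in frontier Ω, ‖F z‖ ∂(Measure.hausdorffMeasure 1) := by
  have haa : a * starRingEnd ℂ a = 1 := by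
    rw [Complex.mul_conj, Complex.normSq_eq_norm_sq, ha]
    simp
  let w : Circle := ⟨a, mem_sphere_zero_iff_norm.mpr ha⟩
  let e : ℂ ≃ᵢ ℂ := (rotation w).toIsometryEquiv.trans (IsometryEquiv.addLeft p)
  have he : ∀ ζ, e ζ = p + a * ζ := fun ζ => by
    simp [e, w, rotation_apply]
  have hv : MeasurePreserving e volume volume :=
    (measurePreserving_add_left volume p).comp (rotation w).measurePreserving
  have hemb : MeasurableEmbedding e := e.toHomeomorph.measurableEmbedding
  have hh : MeasurePreserving e (Measure.hausdorffMeasure 1) (Measure.hausdorffMeasure 1) :=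
    e.measurePreserving_hausdorffMeasure 1
  set F' : ℂ → ℂ := fun ζ => F (p + a * ζ) with hF'
  have hF's : ContDiff ℝ ∞ F' := hF.comp (contDiff_const.add (contDiff_const.mul contDiff_id))
  have hF'c : HasCompactSupport F' := by
    have h1 := hc.comp_isClosedEmbedding e.toHomeomorph.isClosedEmbedding
    have h2 : F ∘ e.toHomeomorph = F' := by
      funext ζ
      simp only [Function.comp_apply, hF']
      rw [← he]
      rfl
    rw [h2] at h1
    exact h1
  have hd : ∀ ζ, dbar F (e ζ) = a * dbar F' ζ := by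
    intro ζ
    rw [hF', dbar_comp hF p a ζ, ← mul_assoc, haa, one_mul, he]
  have hz : ∀ ζ, dbar F' ζ ≠ 0 → |ζ.re| < r ∧ |ζ.im| < r := by
    intro ζ hne
    apply hs
    by_contra hcon
    apply hne
    rw [hF', dbar_comp hF p a ζ, dbar_zero hcon, mul_zero]
  have hgc : Continuous fun z : ℂ => g z.re := hg.continuous.comp Complex.continuous_re
  have hSo : IsOpen {z : ℂ | g z.re < z.im} := isOpen_lt hgc Complex.continuous_im
  have hSc : IsClosed {z : ℂ | g z.re = z.im} := isClosed_eq hgc Complex.continuous_im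
  have hpo : IsOpen (e ⁻¹' Ω) := hΩ.isOpen.preimage e.continuous
  have h1 : ∫ z in Ω, dbar F z = a * ∫ ζ in {z : ℂ | g z.re < z.im}, dbar F' ζ := by
    rw [← hv.setIntegral_preimage_emb hemb, ← integral_const_mul,
      ← integral_indicator hpo.measurableSet, ← integral_indicator hSo.measurableSet]
    congr 1
    funext ζ
    by_cases h0 : dbar F' ζ = 0
    · simp only [indicator]
      rw [hd, h0, mul_zero]
      simp
    · obtain ⟨hr1, hr2⟩ := hz ζ h0
      have hiff := h ζ.re ζ.im hr1 hr2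
      rw [Complex.re_add_im, ← he] at hiff
      by_cases hin : ζ ∈ e ⁻¹' Ω
      · have hin2 : ζ ∈ {z : ℂ | g z.re < z.im} := hiff.mp hin
        rw [indicator_of_mem hin, indicator_of_mem hin2, hd]
      · have hin2 : ζ ∉ {z : ℂ | g z.re < z.im} := fun hh' => hin (hiff.mpr hh')
        rw [indicator_of_notMem hin, indicator_of_notMem hin2]
  rw [h1, norm_mul, ha, one_mul]
  refine (hDL g L hg F' hF's hF'c).trans ?_
  have hpre : {z : ℂ | g z.re = z.im} = e ⁻¹' (e '' {z : ℂ | g z.re = z.im}) :=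
    (preimage_image_eq _ e.injective).symm
  have h2 : ∫ z in {z : ℂ | g z.re = z.im}, ‖F' z‖ ∂(Measure.hausdorffMeasure 1) =
      ∫ z in e '' {z : ℂ | g z.re = z.im}, ‖F z‖ ∂(Measure.hausdorffMeasure 1) := by
    have h3 := hh.setIntegral_preimage_emb hemb (fun z => ‖F z‖) (e '' {z : ℂ | g z.re = z.im})
    rw [← h3, ← hpre]
    congr 1
  have hIm : IsClosed (e '' {z : ℂ | g z.re = z.im}) :=
    e.toHomeomorph.isClosedMap _ hSc
  rw [h2, ← integral_indicator hIm.measurableSet,
    ← integral_indicator isClosed_frontier.measurableSet]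
  refine integral_mono_of_nonneg (ae_of_all _ fun z => ?_) ?_ (ae_of_all _ fun z => ?_)
  · exact indicator_nonneg (fun _ _ => norm_nonneg _) _
  · exact (intOn hΩ hF.continuous.norm).integrable_indicator isClosed_frontier.measurableSet
  · by_cases hzi : z ∈ e '' {z : ℂ | g z.re = z.im}
    · obtain ⟨ζ, hζ, rfl⟩ := hzi
      rw [indicator_of_mem (mem_image_of_mem _ hζ)]
      by_cases h0 : F (e ζ) = 0
      · rw [h0, norm_zero]
        exact indicator_nonneg (fun _ _ => norm_nonneg _) _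
      · have ht : p + a * ζ ∈ tsupport F := by
          rw [← he]
          exact subset_tsupport _ h0
        obtain ⟨hr1, hr2⟩ := hs ζ ht
        have hfr := frontier_of_graph hΩ.isOpen ha h hr1 hr2 hζ
        rw [Complex.re_add_im, ← he] at hfr
        rw [indicator_of_mem hfr]
    · rw [indicator_of_notMem hzi]
      exact indicator_nonneg (fun _ _ => norm_nonneg _) _

theorem int_interior {Ω K : Set ℂ} (hΩ : LipDomain Ω) (hK : frontier Ω ⊆ interior K)
    {F : ℂ → ℂ} (hF : ContDiff ℝ ∞ F) (h0 : ∀ z ∈ K, F z = 0) : ∫ z in Ω, dbar F z = 0 := by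
  have hin : ∀ z ∈ Ω, Ω.indicator F =ᶠ[𝓝 z] F := fun z hz => by
    filter_upwards [hΩ.isOpen.mem_nhds hz] with y hy
    exact indicator_of_mem hy _
  have hout : ∀ z, z ∉ Ω → Ω.indicator F =ᶠ[𝓝 z] (fun _ => 0) := fun z hz => by
    by_cases hzc : z ∈ closure Ω
    · have hzf : z ∈ frontier Ω := by
        rw [hΩ.isOpen.frontier_eq]
        exact ⟨hzc, hz⟩
      filter_upwards [isOpen_interior.mem_nhds (hK hzf)] with y hy
      by_cases hyΩ : y ∈ Ω
      · rw [indicator_of_mem hyΩ, h0 y (interior_subset hy)]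
      · exact indicator_of_notMem hyΩ _
    · filter_upwards [isClosed_closure.isOpen_compl.mem_nhds hzc] with y hy
      exact indicator_of_notMem (fun h => hy (subset_closure h)) _
  have hW : ContDiff ℝ ∞ (Ω.indicator F) := by
    rw [contDiff_iff_contDiffAt]
    intro z
    by_cases hz : z ∈ Ω
    · exact hF.contDiffAt.congr_of_eventuallyEq (hin z hz)
    · exact contDiffAt_const.congr_of_eventuallyEq (hout z hz)
  have hWc : HasCompactSupport (Ω.indicator F) :=
    HasCompactSupport.of_support_subset_isCompact hΩ.bdd.isCompact_closure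
      ((support_indicator_subset).trans subset_closure)
  have heq : Ω.indicator (dbar F) = dbar (Ω.indicator F) := by
    funext z
    by_cases hz : z ∈ Ω
    · rw [indicator_of_mem hz]
      unfold dbar
      rw [(hin z hz).fderiv_eq]
    · rw [indicator_of_notMem hz]
      unfold dbar
      rw [(hout z hz).fderiv_eq]
      simp
  rw [← integral_indicator hΩ.isOpen.measurableSet, heq, int_dbar hW hWc]

theorem t (hDL : S_DL) : S_DV := by
  intro Ω hΩ G hG
  classical
  have hcomp : IsCompact (frontier Ω) :=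
    (hΩ.bdd.isCompact_closure).of_isClosed_subset isClosed_frontier frontier_subset_closure
  have hlip : ∀ p : frontier Ω, ∃ (a : ℂ) (r : ℝ) (L : NNReal) (g : ℝ → ℝ), ‖a‖ = 1 ∧ 0 < r ∧
    LipschitzWith L g ∧ ∀ s t : ℝ, |s| < r → |t| < r → ((p : ℂ) + a * (s + t * I) ∈ Ω ↔ g s < t) :=
    fun p => hΩ.lip p.1 p.2
  choose a r L g ha hr hg hloc using hlip
  set U : frontier Ω → Set ℂ := fun p => {z | |(starRingEnd ℂ (a p) * (z - p)).re| < r p ∧
    |(starRingEnd ℂ (a p) * (z - p)).im| < r p} with hU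
  have hUo : ∀ p, IsOpen (U p) := by
    intro p
    have h1 : Continuous (fun z : ℂ => |(starRingEnd ℂ (a p) * (z - p)).re|) := by fun_prop
    have h2 : Continuous (fun z : ℂ => |(starRingEnd ℂ (a p) * (z - p)).im|) := by fun_prop
    exact (isOpen_lt h1 continuous_const).inter (isOpen_lt h2 continuous_const)
  have hcov : frontier Ω ⊆ ⋃ p, U p := by
    intro z hz
    refine mem_iUnion.mpr ⟨⟨z, hz⟩, ?_⟩
    simp [hU, hr]
  obtain ⟨T, hT⟩ := hcomp.elim_finite_subcover U hUo hcov
  have hVo : IsOpen (⋃ p ∈ T, U p) := isOpen_biUnion fun p _ => hUo p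
  obtain ⟨K, hKc, hK1, hK2⟩ := exists_compact_between hcomp hVo hT
  have hK3 : K ⊆ ⋃ i : T, U i := by
    intro z hz
    obtain ⟨p, hp, hzp⟩ := mem_iUnion₂.mp (hK2 hz)
    exact mem_iUnion.mpr ⟨⟨p, hp⟩, hzp⟩
  obtain ⟨f, hf⟩ := SmoothPartitionOfUnity.exists_isSubordinate 𝓘(ℝ, ℂ) hKc.isClosed
    (fun i : T => U i) (fun i => hUo i) hK3
  have hfs : ∀ i, ContDiff ℝ ∞ (f i) := fun i => (f i).contMDiff.contDiff
  have hfn : ∀ i z, 0 ≤ f i z := fun i z => f.nonneg i z
  have hf1 : ∀ z, ∑ i, f i z ≤ 1 := fun z => by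
    have := f.sum_le_one z
    rwa [finsum_eq_sum_of_fintype] at this
  have hfK : ∀ z ∈ K, ∑ i, f i z = 1 := fun z hz => by
    have := f.sum_eq_one hz
    rwa [finsum_eq_sum_of_fintype] at this
  set Gi : T → ℂ → ℂ := fun i z => ((f i z : ℝ) : ℂ) * G z with hGi
  have hfc : ∀ i, ContDiff ℝ ∞ (fun z => ((f i z : ℝ) : ℂ)) := fun i =>
    Complex.ofRealCLM.contDiff.comp (hfs i)
  have hGis : ∀ i, ContDiff ℝ ∞ (Gi i) := fun i => (hfc i).mul hG
  have hsub : ∀ i, tsupport (Gi i) ⊆ U i := by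
    intro i
    refine (closure_mono ?_).trans (hf i)
    intro z hz
    rw [Function.mem_support] at hz ⊢
    intro h0
    apply hz
    simp only [hGi, h0, Complex.ofReal_zero, zero_mul]
  have hbd : ∀ i : T, Bornology.IsBounded (U i) := by
    intro i
    refine (Metric.isBounded_ball (x := ((i : frontier Ω) : ℂ)) (r := 2 * r i)).subset ?_
    intro z hz
    rw [mem_ball, dist_eq_norm]
    have h1 : ‖z - ((i : frontier Ω) : ℂ)‖ =
        ‖starRingEnd ℂ (a i) * (z - ((i : frontier Ω) : ℂ))‖ := by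
      rw [norm_mul, RCLike.norm_conj, ha, one_mul]
    rw [h1]
    refine (Complex.norm_le_abs_re_add_abs_im _).trans_lt ?_
    have := hz.1
    have := hz.2
    linarith
  have hGic : ∀ i, HasCompactSupport (Gi i) := fun i =>
    Metric.isCompact_of_isClosed_isBounded (isClosed_tsupport _) ((hbd i).subset (hsub i))
  have hloc2 : ∀ i : T, ‖∫ z in Ω, dbar (Gi i) z‖ ≤
      ∫ z in frontier Ω, ‖Gi i z‖ ∂(Measure.hausdorffMeasure 1) := by
    intro i
    refine local_box hDL hΩ (ha i) (hg i) (hloc i) (hGis i) (hGic i) ?_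
    intro ζ hζ
    have h1 := hsub i hζ
    have h2 : starRingEnd ℂ (a i) * (((i : frontier Ω) : ℂ) + a i * ζ - ((i : frontier Ω) : ℂ)) = ζ := by
      have haa : starRingEnd ℂ (a i) * a i = 1 := by
        rw [mul_comm, Complex.mul_conj, Complex.normSq_eq_norm_sq, ha]
        simp
      rw [add_sub_cancel_left, ← mul_assoc, haa, one_mul]
    simp only [hU, mem_ofPred_eq] at h1
    rw [h2] at h1
    exact h1
  set G0 : ℂ → ℂ := fun z => G z - ∑ i, Gi i z with hG0
  have hG0s : ContDiff ℝ ∞ G0 := hG.sub (ContDiff.sum fun i _ => hGis i)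
  have hG0K : ∀ z ∈ K, G0 z = 0 := by
    intro z hz
    simp only [hG0, hGi]
    rw [← Finset.sum_mul, ← Complex.ofReal_sum, hfK z hz]
    simp
  have hI0 := int_interior hΩ hK1 hG0s hG0K
  have hdG : ∀ z, dbar G z = dbar G0 z + ∑ i, dbar (Gi i) z := by
    intro z
    have hd : ∀ F : ℂ → ℂ, ContDiff ℝ ∞ F → DifferentiableAt ℝ F z := fun F hF =>
      (hF.differentiable (by simp)) z
    have h1 : fderiv ℝ G0 z = fderiv ℝ G z - ∑ i, fderiv ℝ (Gi i) z := by
      rw [hG0, fderiv_fun_sub (hd _ hG) (hd _ (ContDiff.sum fun i _ => hGis i)),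
        fderiv_fun_sum fun i _ => hd _ (hGis i)]
    unfold dbar
    rw [h1]
    simp only [_root_.sub_apply, _root_.sum_apply, Finset.sum_add_distrib,
      ← Finset.mul_sum]
    ring
  have hio : ∀ F : ℂ → ℂ, ContDiff ℝ ∞ F → IntegrableOn (dbar F) Ω := fun F hF =>
    ((dbar_cont hF).continuousOn.integrableOn_compact hΩ.bdd.isCompact_closure).mono_set
      subset_closure
  have hsum : ∫ z in Ω, dbar G z = ∑ i, ∫ z in Ω, dbar (Gi i) z := by
    calc ∫ z in Ω, dbar G z = ∫ z in Ω, (dbar G0 z + ∑ i, dbar (Gi i) z) := by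
          congr 1
          funext z
          exact hdG z
      _ = (∫ z in Ω, dbar G0 z) + ∫ z in Ω, ∑ i, dbar (Gi i) z :=
          integral_add (hio _ hG0s) (integrable_finsetSum _ fun i _ => hio _ (hGis i))
      _ = ∑ i, ∫ z in Ω, dbar (Gi i) z := by
          rw [hI0, zero_add, integral_finsetSum _ fun i _ => hio _ (hGis i)]
  rw [hsum]
  calc ‖∑ i, ∫ z in Ω, dbar (Gi i) z‖ ≤ ∑ i, ‖∫ z in Ω, dbar (Gi i) z‖ := norm_sum_le _ _
    _ ≤ ∑ i, ∫ z in frontier Ω, ‖Gi i z‖ ∂(Measure.hausdorffMeasure 1) :=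
        Finset.sum_le_sum fun i _ => hloc2 i
    _ = ∫ z in frontier Ω, ∑ i, ‖Gi i z‖ ∂(Measure.hausdorffMeasure 1) :=
        (integral_finsetSum _ fun i _ => intOn hΩ (hGis i).continuous.norm).symm
    _ ≤ ∫ z in frontier Ω, ‖G z‖ ∂(Measure.hausdorffMeasure 1) := by
        refine integral_mono (integrable_finsetSum _ fun i _ =>
          intOn hΩ (hGis i).continuous.norm) (intOn hΩ hG.continuous.norm) fun z => ?_
        simp only [hGi, norm_mul, Complex.norm_real, Real.norm_eq_abs]
        rw [← Finset.sum_mul]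
        have h1 : ∑ i, |f i z| = ∑ i, f i z :=
          Finset.sum_congr rfl fun i _ => abs_of_nonneg (hfn i z)
        rw [h1]
        exact mul_le_of_le_one_left (norm_nonneg _) (hf1 z)

end Pool.Agent.Helper59.ST.DV
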